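import Pool.Agent.helper56.P2B.SpecP

/-!
# p2b:HTP (helper59), after PL.HTM (helper51): the centre of a half turn is in the domain
-/

set_option autoImplicit false

open Complex Metric Set Filter Topology MeasureTheory
open Pool.Agent.helper98.ILF
open WP (it)
open HY (UD T S hd UN RM)
open PM
open PL (TP LO PZ GJ INR PG DK ht tr DI CY SUBH hG hq BJ)
open P2 (SS FLS FL CLS FR TL)

noncomputable section

namespace P2B

theorem HTP (hTDF : PM.TDF_stmt) : HTP_stmt := by
  intro Ω hDD hne0 p hmem'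
  by_contra hpΩ
  obtain ⟨c, hc⟩ := hne0
  obtain ⟨hΩo, hΩc, hTD⟩ := hTDF Ω hDD
  obtain ⟨hrm, -, -, -, hcx, hcx2, -⟩ := hTD c hc
  have h0 : (0 : ℂ) ∈ UD := mem_ball_self one_pos
  obtain ⟨u, hu⟩ : ∃ u : ℂ, u ^ 2 = rm Ω c 0 - p := IsAlgClosed.exists_pow_nat_eq _ (by norm_num)
  obtain ⟨g, hgd, -, hg⟩ := exists_lift_pow (n := 2) (by norm_num) (w := 0) (ρ := 1) (u := u)
    (h := fun y => rm Ω c y - p) one_pos (hrm.dif.sub_const _) (by
      intro y hy h1
      apply hpΩ
      have h2 : rm Ω c y = p := sub_eq_zero.1 h1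
      have h3 : rm Ω c y ∈ rm Ω c '' UD := mem_image_of_mem _ hy
      rw [hrm.img] at h3
      rw [← h2]
      exact h3) hu
  set s : ℂ → ℂ := fun ζ => g (cx Ω c ζ) with hs
  have hsq : ∀ ζ ∈ Ω, s ζ ^ 2 = ζ - p := by
    intro ζ hζ
    obtain ⟨h1, h2, -⟩ := hcx2 ζ hζ
    have h3 := hg _ h1
    rw [hs]
    simp only
    rw [h3, h2]
  have hsc : ContinuousOn s Ω := by
    refine ContinuousOn.comp hgd.continuousOn hcx.continuousOn ?_
    intro ζ hζ
    exact (hcx2 ζ hζ).1
  have hs1 : ContinuousOn (fun ζ => s (2 * p - ζ)) Ω := by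
    have hpre : ContinuousOn (fun ζ : ℂ => 2 * p - ζ) Ω := by fun_prop
    exact ContinuousOn.comp (g := s) hsc hpre (fun ζ hζ => (hmem' ζ).2 hζ)
  have hs2 : ContinuousOn (fun ζ => I * s ζ) Ω := continuousOn_const.mul hsc
  have hne : ∀ ζ ∈ Ω, s ζ ≠ 0 := by
    intro ζ hζ h1
    have h2 := hsq ζ hζ
    rw [h1] at h2
    apply hpΩ
    have h3 : ζ = p := by
      have : ζ - p = 0 := by rw [← h2]; ring
      exact sub_eq_zero.1 this
    rwa [← h3]
  have hcase := hΩc.eq_or_eq_neg_of_sq_eq hs1 hs2 (by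
    intro ζ hζ
    simp only [Pi.pow_apply]
    rw [hsq _ ((hmem' ζ).2 hζ), mul_pow, Complex.I_sq, hsq ζ hζ]
    ring) (by
    intro ζ hζ
    exact mul_ne_zero Complex.I_ne_zero (hne ζ hζ))
  have hmem0 : 2 * p - c ∈ Ω := (hmem' c).2 hc
  have e1 : 2 * p - (2 * p - c) = c := by ring
  have hII : I * I = -1 := Complex.I_mul_I
  rcases hcase with h | h
  · have h1 : s (2 * p - c) = I * s c := h hc
    have h2 : s (2 * p - (2 * p - c)) = I * s (2 * p - c) := h hmem0
    rw [e1, h1, ← mul_assoc, hII] at h2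
    have h3 : s c = 0 := by linear_combination h2 / 2
    exact hne c hc h3
  · have h1 : s (2 * p - c) = -(I * s c) := h hc
    have h2 : s (2 * p - (2 * p - c)) = -(I * s (2 * p - c)) := h hmem0
    rw [e1, h1] at h2
    have h3 : s c = 0 := by linear_combination h2 / 2 + s c * hII / 2
    exact hne c hc h3

end P2B
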